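import Pool.Agent.TH694.M3.Alg

/-!
# Correctness of the dynamic programme
-/

set_option autoImplicit false

namespace Pool.Agent.TH694.M3

namespace J658

/-! ## Lists -/

theorem mem_seqs' {β : Type} {V : List β} : ∀ {k : ℕ} {l : List β},
    l ∈ seqs V k ↔ l.length ≤ k ∧ ∀ x ∈ l, x ∈ V
  | 0, l => by
    simp only [seqs, List.mem_singleton]
    constructor
    · rintro rfl; simp
    · rintro ⟨h, -⟩
      exact List.length_eq_zero_iff.1 (by omega)
  | k + 1, l => by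
    simp only [seqs, List.mem_append, List.mem_flatMap, List.mem_map]
    rw [mem_seqs' (k := k)]
    constructor
    · rintro (⟨h1, h2⟩ | ⟨v, hv, l', hl', rfl⟩)
      · exact ⟨by omega, h2⟩
      · rw [mem_seqs' (k := k)] at hl'
        refine ⟨by simpa using hl'.1, ?_⟩
        intro x hx
        rcases List.mem_cons.1 hx with rfl | hx
        · exact hv
        · exact hl'.2 x hx
    · rintro ⟨h1, h2⟩
      cases l with
      | nil => left; simp
      | cons v l =>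
        right
        refine ⟨v, h2 v (by simp), l, ?_, rfl⟩
        rw [mem_seqs' (k := k)]
        exact ⟨by simpa using h1, fun x hx => h2 x (List.mem_cons_of_mem _ hx)⟩

theorem mem_trips' {m : ℕ} {t : Trip} :
    t ∈ trips m ↔ t.2.2 < t.2.1 ∧ t.2.1 < t.1 ∧ t.1 < m := by
  obtain ⟨a, b, c⟩ := t
  simp only [trips, List.mem_flatMap, List.mem_map, List.mem_filter, List.mem_range,
    decide_eq_true_eq, Prod.mk.injEq]
  constructor
  · rintro ⟨i, hi, j, hj, k, ⟨hk, h1, h2⟩, rfl, rfl, rfl⟩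
    exact ⟨h1, h2, hi⟩
  · rintro ⟨h1, h2, h3⟩
    exact ⟨a, h3, b, by omega, c, ⟨by omega, h1, h2⟩, rfl, rfl, rfl⟩

theorem nodup_trips' (m : ℕ) : (trips m).Nodup := by
  unfold trips
  rw [List.nodup_flatMap]
  constructor
  · intro i _
    rw [List.nodup_flatMap]
    constructor
    · intro j _
      refine List.Nodup.map ?_ (List.Nodup.filter _ List.nodup_range)
      intro a b h
      simpa using h
    · refine List.Nodup.pairwise_of_forall_ne List.nodup_range ?_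
      intro a _ b _ hab t ht1 ht2
      simp only [List.mem_map] at ht1 ht2
      obtain ⟨c, -, rfl⟩ := ht1
      obtain ⟨d, -, h⟩ := ht2
      simp only [Prod.mk.injEq] at h
      exact hab h.2.1.symm
  · refine List.Nodup.pairwise_of_forall_ne List.nodup_range ?_
    intro a _ b _ hab t ht1 ht2
    simp only [List.mem_flatMap, List.mem_map] at ht1 ht2
    obtain ⟨c, -, c', -, rfl⟩ := ht1
    obtain ⟨d, -, d', -, h⟩ := ht2
    simp only [Prod.mk.injEq] at h
    exact hab h.1.symm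

theorem mem_keys' {T : List Trip} {R : ℕ} {cs : List (List ℕ)} {K : Key} :
    K ∈ keys T R cs ↔ K.1 ∈ cs ∧ K.2 ∈ seqs T R := by
  obtain ⟨P, S⟩ := K
  simp only [keys, List.mem_flatMap, List.mem_map, Prod.mk.injEq]
  constructor
  · rintro ⟨P', h1, S', h2, rfl, rfl⟩
    exact ⟨h1, h2⟩
  · rintro ⟨h1, h2⟩
    exact ⟨P, h1, S, h2, rfl, rfl⟩

theorem mem_combs' {T : List Trip} {tab : List Entry} {K : Key} {S : List Trip} :
    S ∈ combs T tab K ↔ ∃ e₁ ∈ tab, ∃ e₂ ∈ tab, Comb K e₁.1 e₂.1 ∧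
      ∃ S₁ ∈ e₁.2, ∃ S₂ ∈ e₂.2, glue T K.1 e₁.1.2 e₂.1.2 S₁ S₂ = S := by
  unfold combs
  simp only [List.mem_flatMap]
  constructor
  · rintro ⟨e₁, h1, e₂, h2, h3⟩
    split_ifs at h3 with h4
    · simp only [List.mem_flatMap, List.mem_map] at h3
      exact ⟨e₁, h1, e₂, h2, h4, h3⟩
    · simp at h3
  · rintro ⟨e₁, h1, e₂, h2, h4, h3⟩
    refine ⟨e₁, h1, e₂, h2, ?_⟩
    rw [if_pos h4]
    simpa only [List.mem_flatMap, List.mem_map] using h3

theorem mem_glue' {T : List Trip} {P : List ℕ} {T₁ T₂ S₁ S₂ : List Trip} {t : Trip} :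
    t ∈ glue T P T₁ T₂ S₁ S₂ ↔ t ∈ T ∧ (t ∈ S₁ ∨ t ∈ S₂ ∨ ((t ∈ T₁ ∨ t ∈ T₂) ∧ inside t P)) := by
  classical
  unfold glue
  rw [List.mem_filter, decide_eq_true_eq]

/-! ## The function `best` -/

theorem best_length_le (w : Trip → ℕ) (l : List (List Trip)) : (best w l).length ≤ 1 := by
  unfold best
  rw [List.length_take]
  exact min_le_left _ _

theorem mem_of_mem_best {w : Trip → ℕ} {l : List (List Trip)} {S : List Trip}
    (h : S ∈ best w l) : S ∈ l :=
  List.mem_of_mem_filter (List.mem_of_mem_take h)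

theorem exists_best {w : Trip → ℕ} {l : List (List Trip)} {S : List Trip}
    (h : S ∈ l) : ∃ S' ∈ best w l, cw w S' ≤ cw w S := by
  classical
  obtain ⟨S₁, h1, h2⟩ := Finset.exists_min_image l.toFinset (cw w) ⟨S, List.mem_toFinset.2 h⟩
  have h3 : S₁ ∈ l.filter (fun S => decide (∀ S' ∈ l, cw w S ≤ cw w S')) := by
    rw [List.mem_filter, decide_eq_true_eq]
    exact ⟨List.mem_toFinset.1 h1, fun S' h => h2 S' (List.mem_toFinset.2 h)⟩
  unfold best
  cases hl : l.filter (fun S => decide (∀ S' ∈ l, cw w S ≤ cw w S')) with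
  | nil => rw [hl] at h3; simp at h3
  | cons a l' =>
    refine ⟨a, by simp, ?_⟩
    have h4 : a ∈ l.filter (fun S => decide (∀ S' ∈ l, cw w S ≤ cw w S')) := by
      rw [hl]; simp
    rw [List.mem_filter, decide_eq_true_eq] at h4
    exact h4.2 S h

/-! ## Weights -/

theorem cw_nil (w : Trip → ℕ) : cw w [] = 0 := rfl

theorem cw_append (w : Trip → ℕ) (A B : List Trip) : cw w (A ++ B) = cw w A + cw w B := by
  unfold cw
  rw [List.map_append, List.sum_append]

theorem cw_filter (w : Trip → ℕ) (p : Trip → Bool) (S : List Trip) :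
    cw w (S.filter p) = (S.map (fun t => if p t = true then w t else 0)).sum := by
  induction S with
  | nil => rfl
  | cons a S ih =>
    rw [List.filter_cons, List.map_cons, List.sum_cons, ← ih]
    by_cases h : p a = true
    · rw [if_pos h, if_pos h]; simp [cw]
    · rw [if_neg h, if_neg h]; simp

theorem cw_le_of_subset (w : Trip → ℕ) {A B : List Trip} (hA : A.Nodup) (h : A ⊆ B) :
    cw w A ≤ cw w B := by
  obtain ⟨C, h1, h2⟩ := List.subperm_of_subset hA h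
  have h3 : cw w C = cw w A := (h1.map w).sum_eq
  rw [← h3]
  exact (h2.map w).sum_le_sum (fun _ _ => Nat.zero_le _)

/-! ## The values of the keys -/

/-- The value of a key after `r` rounds. -/
noncomputable def vlr (w : Trip → ℕ) (T : List Trip) (R : ℕ) (cs : List (List ℕ)) :
    ℕ → Key → List (List Trip)
  | 0, K => base K
  | r + 1, K => best w (vlr w T R cs r K ++ combs T (tabr w T R cs r) K)

theorem tabr_eq' (w : Trip → ℕ) (T : List Trip) (R : ℕ) (cs : List (List ℕ)) (r : ℕ) :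
    tabr w T R cs r = (keys T R cs).map (fun K => (K, vlr w T R cs r K)) := by
  induction r with
  | zero => rfl
  | succ r ih =>
    have h1 : tabr w T R cs (r + 1) = (tabr w T R cs r).map
        (fun e => (e.1, best w (e.2 ++ combs T (tabr w T R cs r) e.1))) := by
      conv_lhs => unfold tabr
      rw [Function.iterate_succ_apply']
      rfl
    rw [h1]
    conv_lhs => rw [ih]
    rw [List.map_map, ← ih]
    rfl

theorem mem_tabr' {w : Trip → ℕ} {T : List Trip} {R : ℕ} {cs : List (List ℕ)} {r : ℕ}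
    {e : Entry} : e ∈ tabr w T R cs r ↔ e.1 ∈ keys T R cs ∧ e.2 = vlr w T R cs r e.1 := by
  rw [tabr_eq', List.mem_map]
  constructor
  · rintro ⟨K, hK, rfl⟩
    exact ⟨hK, rfl⟩
  · rintro ⟨h1, h2⟩
    exact ⟨e.1, h1, by rw [← h2]⟩

theorem vlr_length_le (w : Trip → ℕ) (T : List Trip) (R : ℕ) (cs : List (List ℕ)) (r : ℕ)
    (K : Key) : (vlr w T R cs r K).length ≤ 1 := by
  cases r with
  | zero =>
    change (base K).length ≤ 1
    unfold base
    split_ifs <;> simp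
  | succ r => exact best_length_le _ _

theorem vlr_unique {w : Trip → ℕ} {T : List Trip} {R : ℕ} {cs : List (List ℕ)} {r : ℕ}
    {K : Key} {S S' : List Trip} (h : S ∈ vlr w T R cs r K) (h' : S' ∈ vlr w T R cs r K) :
    S = S' := by
  have h1 := vlr_length_le w T R cs r K
  cases hl : vlr w T R cs r K with
  | nil => rw [hl] at h; simp at h
  | cons a l =>
    rw [hl, List.length_cons] at h1
    have h2 : l = [] := List.length_eq_zero_iff.1 (by omega)
    subst h2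
    rw [hl, List.mem_singleton] at h h'
    rw [h, h']

theorem vlr_mono {w : Trip → ℕ} {T : List Trip} {R : ℕ} {cs : List (List ℕ)} {r : ℕ}
    {K : Key} {S : List Trip} (h : S ∈ vlr w T R cs r K) :
    ∃ S' ∈ vlr w T R cs (r + 1) K, cw w S' ≤ cw w S :=
  exists_best (List.mem_append_left _ h)

theorem vlr_mono_le {w : Trip → ℕ} {T : List Trip} {R : ℕ} {cs : List (List ℕ)} {r : ℕ}
    {K : Key} {S : List Trip} (h : S ∈ vlr w T R cs r K) {r' : ℕ} (hr : r ≤ r') :
    ∃ S' ∈ vlr w T R cs r' K, cw w S' ≤ cw w S := by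
  induction hr with
  | refl => exact ⟨S, h, le_rfl⟩
  | step _ ih =>
    obtain ⟨S₁, h1, h2⟩ := ih
    obtain ⟨S₂, h3, h4⟩ := vlr_mono h1
    exact ⟨S₂, h3, h4.trans h2⟩

/-! ## Soundness -/

/-- The family `S` is a partial solution for the key `K`. -/
def Valid (T : List Trip) (K : Key) (S : List Trip) : Prop :=
  S.Sublist T ∧ (∀ t ∈ S, inside t K.1) ∧ ∀ v ∈ K.1, ∃! t, (t ∈ K.2 ∨ t ∈ S) ∧ tmem v t

theorem inside_mono {t : Trip} {P Q : List ℕ} (h : ∀ v ∈ P, v ∈ Q) (ht : inside t P) :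
    inside t Q :=
  ⟨h _ ht.1, h _ ht.2.1, h _ ht.2.2⟩

theorem touch_mono {t : Trip} {P Q : List ℕ} (h : ∀ v ∈ P, v ∈ Q) (ht : touch t P) :
    touch t Q := by
  rcases ht with h1 | h1 | h1
  · exact Or.inl (h _ h1)
  · exact Or.inr (Or.inl (h _ h1))
  · exact Or.inr (Or.inr (h _ h1))

theorem touch_of_mem {t : Trip} {P : List ℕ} {v : ℕ} (h : tmem v t) (hv : v ∈ P) :
    touch t P := by
  rcases h with h1 | h1 | h1
  · exact Or.inl (h1 ▸ hv)
  · exact Or.inr (Or.inl (h1 ▸ hv))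
  · exact Or.inr (Or.inr (h1 ▸ hv))

theorem mem_of_inside {t : Trip} {P : List ℕ} {v : ℕ} (h : tmem v t) (hi : inside t P) :
    v ∈ P := by
  rcases h with h1 | h1 | h1
  · exact h1 ▸ hi.1
  · exact h1 ▸ hi.2.1
  · exact h1 ▸ hi.2.2

theorem exists_of_touch {t : Trip} {P : List ℕ} (h : touch t P) : ∃ v ∈ P, tmem v t := by
  rcases h with h1 | h1 | h1
  · exact ⟨_, h1, Or.inl rfl⟩
  · exact ⟨_, h1, Or.inr (Or.inl rfl)⟩
  · exact ⟨_, h1, Or.inr (Or.inr rfl)⟩

theorem touch_of_inside {t : Trip} {P : List ℕ} (h : inside t P) : touch t P := Or.inl h.1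

theorem valid_base {T : List Trip} {K : Key} {S : List Trip} (h : S ∈ base K) : Valid T K S := by
  unfold base at h
  split_ifs at h with hF
  · rw [List.mem_singleton] at h
    subst h
    refine ⟨List.nil_sublist _, by simp, ?_⟩
    intro v hv
    obtain ⟨⟨t, ht, hvt⟩, h2⟩ := hF v hv
    refine ⟨t, ⟨Or.inl ht, hvt⟩, ?_⟩
    rintro t' ⟨ht' | ht', hvt'⟩
    · exact (h2 t ht t' ht' hvt hvt').symm
    · simp at ht'
  · simp at h

/-- One half of the next lemma. -/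
theorem valid_glue_aux {T : List Trip} {K K₁ K₂ : Key} {S₁ S₂ : List Trip}
    (hK₁ : ∀ t ∈ K₁.2, t ∈ T)
    (hdis : ∀ v ∈ K₁.1, v ∉ K₂.1)
    (h21 : ∀ t ∈ K₂.2, touch t K₁.1 → t ∈ K₁.2)
    (hin : ∀ t ∈ K₁.2, t ∈ K.2 ∨ inside t K.1)
    (hK : ∀ t ∈ K.2, touch t K.1 → t ∈ K₁.2 ∨ t ∈ K₂.2)
    (hsub : ∀ v ∈ K₁.1, v ∈ K.1)
    (h1 : Valid T K₁ S₁) (h2 : Valid T K₂ S₂) {v : ℕ} (hv : v ∈ K₁.1) :
    ∃! t, (t ∈ K.2 ∨ (t ∈ T ∧ (t ∈ S₁ ∨ t ∈ S₂ ∨ ((t ∈ K₁.2 ∨ t ∈ K₂.2) ∧ inside t K.1)))) ∧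
      tmem v t := by
  obtain ⟨t₀, ⟨ht₀, hvt₀⟩, huniq⟩ := h1.2.2 v hv
  refine ⟨t₀, ⟨?_, hvt₀⟩, ?_⟩
  · rcases ht₀ with h | h
    · rcases hin t₀ h with h' | h'
      · exact Or.inl h'
      · exact Or.inr ⟨hK₁ _ h, Or.inr (Or.inr ⟨Or.inl h, h'⟩)⟩
    · exact Or.inr ⟨h1.1.subset h, Or.inl h⟩
  · rintro t ⟨h, hvt⟩
    have key : t ∈ K₁.2 ∨ t ∈ K₂.2 → t = t₀ := by
      rintro (h' | h')
      · exact huniq t ⟨Or.inl h', hvt⟩
      · exact huniq t ⟨Or.inl (h21 t h' (touch_of_mem hvt hv)), hvt⟩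
    rcases h with h | ⟨-, h | h | ⟨h, -⟩⟩
    · exact key (hK t h (touch_of_mem hvt (hsub v hv)))
    · exact huniq t ⟨Or.inr h, hvt⟩
    · exact absurd (mem_of_inside hvt (h2.2.1 t h)) (hdis v hv)
    · exact key h

theorem valid_glue {T : List Trip} {K K₁ K₂ : Key} {S₁ S₂ : List Trip}
    (hK₁ : ∀ t ∈ K₁.2, t ∈ T) (hK₂ : ∀ t ∈ K₂.2, t ∈ T) (hC : Comb K K₁ K₂)
    (h1 : Valid T K₁ S₁) (h2 : Valid T K₂ S₂) :
    Valid T K (glue T K.1 K₁.2 K₂.2 S₁ S₂) := by
  classical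
  obtain ⟨⟨a1, a2⟩, ⟨b1, b2⟩, ⟨c1, c2⟩, ⟨d1, d2⟩, e⟩ := hC
  refine ⟨List.filter_sublist, ?_, ?_⟩
  · intro t ht
    rw [mem_glue'] at ht
    rcases ht.2 with h | h | h
    · exact inside_mono a1 (h1.2.1 t h)
    · exact inside_mono a2 (h2.2.1 t h)
    · exact h.2
  · intro v hv
    simp only [mem_glue']
    rcases b1 v hv with hv1 | hv1
    · exact valid_glue_aux hK₁ b2 c2 d1 e a1 h1 h2 hv1
    · have b2' : ∀ v ∈ K₂.1, v ∉ K₁.1 := fun v h h' => b2 v h' h
      have e' : ∀ t ∈ K.2, touch t K.1 → t ∈ K₂.2 ∨ t ∈ K₁.2 := fun t h h' => (e t h h').symm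
      have h3 := valid_glue_aux hK₂ b2' c1 d2 e' a2 h2 h1 hv1
      have h4 : ∀ t : Trip, (t ∈ K.2 ∨ (t ∈ T ∧ (t ∈ S₂ ∨ t ∈ S₁ ∨
          ((t ∈ K₂.2 ∨ t ∈ K₁.2) ∧ inside t K.1)))) ↔ (t ∈ K.2 ∨ (t ∈ T ∧ (t ∈ S₁ ∨ t ∈ S₂ ∨
          ((t ∈ K₁.2 ∨ t ∈ K₂.2) ∧ inside t K.1)))) := by
        intro t; tauto
      simp only [h4] at h3
      exact h3

theorem valid_vlr {w : Trip → ℕ} {T : List Trip} {R : ℕ} {cs : List (List ℕ)} (r : ℕ) :
    ∀ {K : Key} {S : List Trip}, K ∈ keys T R cs → S ∈ vlr w T R cs r K → Valid T K S := by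
  induction r with
  | zero => intro K S _ h; exact valid_base h
  | succ r ih =>
    intro K S hK h
    have h1 := mem_of_mem_best h
    rw [List.mem_append] at h1
    rcases h1 with h1 | h1
    · exact ih hK h1
    · rw [mem_combs'] at h1
      obtain ⟨e₁, h2, e₂, h3, hC, S₁, h4, S₂, h5, rfl⟩ := h1
      rw [mem_tabr'] at h2 h3
      rw [h2.2] at h4
      rw [h3.2] at h5
      refine valid_glue ?_ ?_ hC (ih h2.1 h4) (ih h3.1 h5)
      · exact (mem_seqs'.1 (mem_keys'.1 h2.1).2).2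
      · exact (mem_seqs'.1 (mem_keys'.1 h3.1).2).2

/-! ## Cells -/

theorem mem_cellL {X : List (ℕ × ℕ)} {gx gy u v : ℕ} :
    u ∈ cellL X gx gy v ↔ u < X.length ∧
      ((X.getD u (0, 0)).1 / gx = (X.getD v (0, 0)).1 / gx ∧
      (X.getD u (0, 0)).2 / gy = (X.getD v (0, 0)).2 / gy) := by
  unfold cellL
  rw [List.mem_filter, decide_eq_true_eq, List.mem_range]

theorem self_mem_cellL {X : List (ℕ × ℕ)} {gx gy v : ℕ} (h : v < X.length) :
    v ∈ cellL X gx gy v :=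
  mem_cellL.2 ⟨h, rfl, rfl⟩

theorem cellL_ext {X : List (ℕ × ℕ)} {gx gy v gx' gy' v' : ℕ}
    (h : ∀ u, u ∈ cellL X gx gy v ↔ u ∈ cellL X gx' gy' v') :
    cellL X gx gy v = cellL X gx' gy' v' := by
  unfold cellL
  refine List.filter_congr ?_
  intro u hu
  rw [List.mem_range] at hu
  have := h u
  rw [mem_cellL, mem_cellL] at this
  rw [decide_eq_decide]
  constructor
  · intro h1; exact (this.1 ⟨hu, h1⟩).2
  · intro h1; exact (this.2 ⟨hu, h1⟩).2

theorem cellL_eq {X : List (ℕ × ℕ)} {gx gy u v : ℕ} (h : u ∈ cellL X gx gy v) :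
    cellL X gx gy u = cellL X gx gy v := by
  rw [mem_cellL] at h
  refine cellL_ext ?_
  intro x
  rw [mem_cellL, mem_cellL, h.2.1, h.2.2]

theorem lt_of_mem_cellL {X : List (ℕ × ℕ)} {gx gy u v : ℕ} (h : u ∈ cellL X gx gy v) :
    u < X.length := (mem_cellL.1 h).1

theorem cellL_mem_cells {X : List (ℕ × ℕ)} {N gx gy v : ℕ} (hx : gx ≤ N) (hy : gy ≤ N)
    (hv : v < X.length) : cellL X gx gy v ∈ cells N X := by
  unfold cells
  simp only [List.mem_flatMap, List.mem_map, List.mem_range]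
  exact ⟨gx, by omega, gy, by omega, v, hv, rfl⟩

theorem mem_outs' {T : List Trip} {tab : List Entry} {N : ℕ} {X : List (ℕ × ℕ)}
    {S : List Trip} : S ∈ outs T tab N X ↔ ∃ G ≤ N, okS tab X G ∧ outS T tab X G = S := by
  unfold outs
  simp only [List.mem_flatMap, List.mem_range]
  constructor
  · rintro ⟨G, hG, h⟩
    split_ifs at h with h1
    · rw [List.mem_singleton] at h
      exact ⟨G, by omega, h1, h.symm⟩
    · simp at h
  · rintro ⟨G, hG, h1, rfl⟩
    refine ⟨G, by omega, ?_⟩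
    rw [if_pos h1]
    simp

theorem mem_outS' {T : List Trip} {tab : List Entry} {X : List (ℕ × ℕ)} {G : ℕ} {t : Trip} :
    t ∈ outS T tab X G ↔ t ∈ T ∧
      ∃ v ∈ List.range X.length, ∃ e ∈ tab, e.1 = (cellL X G G v, []) ∧ ∃ S ∈ e.2, t ∈ S := by
  classical
  unfold outS
  rw [List.mem_filter, decide_eq_true_eq]

/-- Everything the dynamic programme returns is a partition into triples. -/
theorem _root_.Pool.Agent.TH694.M3.dp_sound (w : Trip → ℕ) (R N : ℕ) (X : List (ℕ × ℕ)) {S : List Trip}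
    (hS : S ∈ dp w R N X) :
    S.Sublist (trips X.length) ∧ ∀ v < X.length, ∃! t, t ∈ S ∧ tmem v t := by
  classical
  unfold dp at hS
  rw [mem_outs'] at hS
  obtain ⟨G, -, hok, rfl⟩ := hS
  refine ⟨List.filter_sublist, ?_⟩
  intro v hv
  obtain ⟨e, he, he1, he2⟩ := hok v (List.mem_range.2 hv)
  obtain ⟨S, hS⟩ := List.exists_mem_of_ne_nil _ he2
  have hval : Valid (trips X.length) e.1 S := by
    have := mem_tabr'.1 he
    exact valid_vlr N this.1 (this.2 ▸ hS)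
  have hv1 : v ∈ e.1.1 := by rw [he1]; exact self_mem_cellL hv
  obtain ⟨t₀, ⟨ht₀, hvt₀⟩, huniq⟩ := hval.2.2 v hv1
  have ht₀' : t₀ ∈ S := by
    rcases ht₀ with h | h
    · rw [he1] at h; simp at h
    · exact h
  refine ⟨t₀, ⟨mem_outS'.2 ⟨hval.1.subset ht₀', v, List.mem_range.2 hv, e, he, he1, S, hS, ht₀'⟩,
    hvt₀⟩, ?_⟩
  rintro t ⟨ht, hvt⟩
  rw [mem_outS'] at ht
  obtain ⟨-, v', hv', e', he', he1', S', hS', htS'⟩ := ht
  have hval' : Valid (trips X.length) e'.1 S' := by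
    have := mem_tabr'.1 he'
    exact valid_vlr N this.1 (this.2 ▸ hS')
  have h1 : v ∈ e'.1.1 := mem_of_inside hvt (hval'.2.1 t htS')
  rw [he1'] at h1
  have h2 : cellL X G G v = cellL X G G v' := cellL_eq h1
  have h3 : e.1 = e'.1 := by rw [he1, he1', h2]
  have h4 : S = S' := by
    have a := (mem_tabr'.1 he).2
    have b := (mem_tabr'.1 he').2
    rw [← h3] at b
    rw [a] at hS
    rw [b] at hS'
    exact vlr_unique hS hS'
  subst h4
  exact huniq t ⟨Or.inr htS', hvt⟩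

/-! ## Completeness -/

open Classical in
/-- The members of `S₀` which cross `P`. -/
noncomputable def crs (S₀ : List Trip) (P : List ℕ) : List Trip :=
  S₀.filter (fun t => decide (touch t P ∧ ¬ inside t P))

open Classical in
/-- The members of `S₀` inside `P`. -/
noncomputable def ins (S₀ : List Trip) (P : List ℕ) : List Trip :=
  S₀.filter (fun t => decide (inside t P))

theorem mem_crs {S₀ : List Trip} {P : List ℕ} {t : Trip} :
    t ∈ crs S₀ P ↔ t ∈ S₀ ∧ touch t P ∧ ¬ inside t P := by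
  classical
  unfold crs
  rw [List.mem_filter, decide_eq_true_eq]

theorem mem_ins {S₀ : List Trip} {P : List ℕ} {t : Trip} :
    t ∈ ins S₀ P ↔ t ∈ S₀ ∧ inside t P := by
  classical
  unfold ins
  rw [List.mem_filter, decide_eq_true_eq]

theorem comb_crs {S₀ : List Trip} {P P₁ P₂ : List ℕ} (h1 : ∀ v ∈ P₁, v ∈ P)
    (h2 : ∀ v ∈ P₂, v ∈ P) (h : ∀ v ∈ P, v ∈ P₁ ∨ v ∈ P₂) (hd : ∀ v ∈ P₁, v ∉ P₂) :
    Comb (P, crs S₀ P) (P₁, crs S₀ P₁) (P₂, crs S₀ P₂) := by
  have dis : ∀ t, touch t P₁ → ¬ inside t P₂ := by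
    intro t ht hi
    obtain ⟨v, hv, hvt⟩ := exists_of_touch ht
    exact hd v hv (mem_of_inside hvt hi)
  have dis' : ∀ t, touch t P₂ → ¬ inside t P₁ := by
    intro t ht hi
    obtain ⟨v, hv, hvt⟩ := exists_of_touch ht
    exact hd v (mem_of_inside hvt hi) hv
  refine ⟨⟨h1, h2⟩, ⟨h, hd⟩, ⟨?_, ?_⟩, ⟨?_, ?_⟩, ?_⟩
  · intro t ht ht2
    rw [mem_crs] at ht ⊢
    exact ⟨ht.1, ht2, dis t ht.2.1⟩
  · intro t ht ht2
    rw [mem_crs] at ht ⊢
    exact ⟨ht.1, ht2, dis' t ht.2.1⟩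
  · intro t ht
    rw [mem_crs] at ht
    by_cases hi : inside t P
    · exact Or.inr hi
    · exact Or.inl (mem_crs.2 ⟨ht.1, touch_mono h1 ht.2.1, hi⟩)
  · intro t ht
    rw [mem_crs] at ht
    by_cases hi : inside t P
    · exact Or.inr hi
    · exact Or.inl (mem_crs.2 ⟨ht.1, touch_mono h2 ht.2.1, hi⟩)
  · intro t ht htP
    rw [mem_crs] at ht
    obtain ⟨v, hv, hvt⟩ := exists_of_touch ht.2.1
    rcases h v hv with h' | h'
    · exact Or.inl (mem_crs.2 ⟨ht.1, touch_of_mem hvt h', fun hi => ht.2.2 (inside_mono h1 hi)⟩)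
    · exact Or.inr (mem_crs.2 ⟨ht.1, touch_of_mem hvt h', fun hi => ht.2.2 (inside_mono h2 hi)⟩)

open Classical in
/-- The triples of the third kind in a glued solution. -/
noncomputable def mid (S₀ : List Trip) (P P₁ P₂ : List ℕ) : List Trip :=
  S₀.filter (fun t => decide ((t ∈ crs S₀ P₁ ∨ t ∈ crs S₀ P₂) ∧ inside t P))

theorem mem_mid {S₀ : List Trip} {P P₁ P₂ : List ℕ} {t : Trip} :
    t ∈ mid S₀ P P₁ P₂ ↔ t ∈ S₀ ∧ ((t ∈ crs S₀ P₁ ∨ t ∈ crs S₀ P₂) ∧ inside t P) := by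
  classical
  unfold mid
  rw [List.mem_filter, decide_eq_true_eq]

theorem cw_glue_le (w : Trip → ℕ) {T S₀ : List Trip} (hT : T.Nodup) {P P₁ P₂ : List ℕ}
    (S₁ S₂ : List Trip) :
    cw w (glue T P (crs S₀ P₁) (crs S₀ P₂) S₁ S₂) ≤ cw w S₁ + cw w S₂ + cw w (mid S₀ P P₁ P₂) := by
  classical
  rw [← cw_append, ← cw_append]
  refine cw_le_of_subset w (List.Nodup.filter _ hT) ?_
  intro t ht
  rw [mem_glue'] at ht
  rw [List.mem_append, List.mem_append]
  rcases ht.2 with h | h | h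
  · exact Or.inl (Or.inl h)
  · exact Or.inl (Or.inr h)
  · refine Or.inr (mem_mid.2 ⟨?_, h⟩)
    rcases h.1 with h' | h'
    · exact (mem_crs.1 h').1
    · exact (mem_crs.1 h').1

theorem cw_ins_add (w : Trip → ℕ) {S₀ : List Trip} {P P₁ P₂ : List ℕ} (h1 : ∀ v ∈ P₁, v ∈ P)
    (h2 : ∀ v ∈ P₂, v ∈ P) (hd : ∀ v ∈ P₁, v ∉ P₂) :
    cw w (ins S₀ P₁) + cw w (ins S₀ P₂) + cw w (mid S₀ P P₁ P₂) ≤ cw w (ins S₀ P) := by
  classical
  unfold ins mid
  rw [cw_filter, cw_filter, cw_filter, cw_filter, ← List.sum_map_add, ← List.sum_map_add]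
  refine List.sum_le_sum ?_
  intro t ht
  simp only [decide_eq_true_eq]
  by_cases a1 : inside t P₁
  · have a2 : ¬ inside t P₂ := fun h => hd _ a1.1 h.1
    have a3 : ¬ ((t ∈ crs S₀ P₁ ∨ t ∈ crs S₀ P₂) ∧ inside t P) := by
      rintro ⟨h | h, -⟩
      · exact (mem_crs.1 h).2.2 a1
      · obtain ⟨v, hv, hvt⟩ := exists_of_touch (mem_crs.1 h).2.1
        exact hd v (mem_of_inside hvt a1) hv
    rw [if_pos a1, if_neg a2, if_neg a3, if_pos (inside_mono h1 a1)]
    simp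
  · by_cases a2 : inside t P₂
    · have a3 : ¬ ((t ∈ crs S₀ P₁ ∨ t ∈ crs S₀ P₂) ∧ inside t P) := by
        rintro ⟨h | h, -⟩
        · obtain ⟨v, hv, hvt⟩ := exists_of_touch (mem_crs.1 h).2.1
          exact hd v hv (mem_of_inside hvt a2)
        · exact (mem_crs.1 h).2.2 a2
      rw [if_neg a1, if_pos a2, if_neg a3, if_pos (inside_mono h2 a2)]
      simp
    · by_cases a3 : (t ∈ crs S₀ P₁ ∨ t ∈ crs S₀ P₂) ∧ inside t P
      · rw [if_neg a1, if_neg a2, if_pos a3, if_pos a3.2]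
        simp
      · rw [if_neg a1, if_neg a2, if_neg a3]
        simp

section
variable {w : Trip → ℕ} {R N : ℕ} {X : List (ℕ × ℕ)} {S₀ : List Trip}

/-- The key of a cell. -/
noncomputable def kc (X : List (ℕ × ℕ)) (S₀ : List Trip) (gx gy v : ℕ) : Key :=
  (cellL X gx gy v, crs S₀ (cellL X gx gy v))

theorem kc_mem (hS₀ : S₀ ⊆ trips X.length) {gx gy v : ℕ} (hx : gx ≤ N) (hy : gy ≤ N)
    (hv : v < X.length) (hR : (crs S₀ (cellL X gx gy v)).length ≤ R) :
    kc X S₀ gx gy v ∈ keys (trips X.length) R (cells N X) := by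
  rw [mem_keys']
  refine ⟨cellL_mem_cells hx hy hv, mem_seqs'.2 ⟨hR, ?_⟩⟩
  intro t ht
  exact hS₀ (mem_crs.1 ht).1

/-- The induction step. -/
theorem step_complete (hS₀ : S₀ ⊆ trips X.length) {gx gy gx' gy' r : ℕ}
    (hx : gx ≤ N) (hy : gy ≤ N)
    (hR : ∀ v < X.length, (crs S₀ (cellL X gx gy v)).length ≤ R)
    (H1 : ∀ v u, u ∈ cellL X gx gy v → u ∈ cellL X gx' gy' v)
    (H2 : ∀ v u₁ u₂ u₃, u₁ ∈ cellL X gx' gy' v → u₂ ∈ cellL X gx' gy' v →
      u₃ ∈ cellL X gx' gy' v → u₂ ∉ cellL X gx gy u₁ →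
      u₃ ∈ cellL X gx gy u₁ ∨ u₃ ∈ cellL X gx gy u₂)
    (ih : ∀ v < X.length, ∃ S ∈ vlr w (trips X.length) R (cells N X) r (kc X S₀ gx gy v),
      cw w S ≤ cw w (ins S₀ (cellL X gx gy v))) :
    ∀ v < X.length, ∃ S ∈ vlr w (trips X.length) R (cells N X) (r + 1) (kc X S₀ gx' gy' v),
      cw w S ≤ cw w (ins S₀ (cellL X gx' gy' v)) := by
  intro v hv
  by_cases hall : ∀ u ∈ cellL X gx' gy' v, u ∈ cellL X gx gy v
  · have h1 : cellL X gx' gy' v = cellL X gx gy v :=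
      cellL_ext (fun u => ⟨hall u, H1 v u⟩)
    obtain ⟨S, hS, hw⟩ := ih v hv
    obtain ⟨S', hS', hw'⟩ := vlr_mono hS
    unfold kc
    rw [h1]
    exact ⟨S', hS', hw'.trans hw⟩
  · push Not at hall
    obtain ⟨u, hu, hu'⟩ := hall
    have huX : u < X.length := lt_of_mem_cellL hu
    have hvv : v ∈ cellL X gx' gy' v := self_mem_cellL hv
    have hP1 : ∀ x ∈ cellL X gx gy v, x ∈ cellL X gx' gy' v := H1 v
    have hP2 : ∀ x ∈ cellL X gx gy u, x ∈ cellL X gx' gy' v := by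
      intro x hx
      have := H1 u x hx
      rwa [cellL_eq hu] at this
    have hcov : ∀ x ∈ cellL X gx' gy' v, x ∈ cellL X gx gy v ∨ x ∈ cellL X gx gy u :=
      fun x hx => H2 v v u x hvv hu hx hu'
    have hdis : ∀ x ∈ cellL X gx gy v, x ∉ cellL X gx gy u := by
      intro x hx hx'
      apply hu'
      rw [← cellL_eq hx, cellL_eq hx']
      exact self_mem_cellL huX
    obtain ⟨S₁, hS₁, hw₁⟩ := ih v hv
    obtain ⟨S₂, hS₂, hw₂⟩ := ih u huX
    have hcomb := comb_crs (S₀ := S₀) hP1 hP2 hcov hdis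
    have hmem : glue (trips X.length) (cellL X gx' gy' v) (crs S₀ (cellL X gx gy v))
        (crs S₀ (cellL X gx gy u)) S₁ S₂ ∈
        vlr w (trips X.length) R (cells N X) r (kc X S₀ gx' gy' v) ++
        combs (trips X.length) (tabr w (trips X.length) R (cells N X) r) (kc X S₀ gx' gy' v) := by
      refine List.mem_append_right _ (mem_combs'.2 ?_)
      exact ⟨(kc X S₀ gx gy v, vlr w (trips X.length) R (cells N X) r (kc X S₀ gx gy v)),
        mem_tabr'.2 ⟨kc_mem hS₀ hx hy hv (hR v hv), rfl⟩,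
        (kc X S₀ gx gy u, vlr w (trips X.length) R (cells N X) r (kc X S₀ gx gy u)),
        mem_tabr'.2 ⟨kc_mem hS₀ hx hy huX (hR u huX), rfl⟩, hcomb, S₁, hS₁, S₂, hS₂, rfl⟩
    obtain ⟨S, hS, hw⟩ := exists_best (w := w) hmem
    refine ⟨S, hS, hw.trans ?_⟩
    have a1 := cw_glue_le w (S₀ := S₀) (nodup_trips' X.length) (P := cellL X gx' gy' v)
      (P₁ := cellL X gx gy v) (P₂ := cellL X gx gy u) S₁ S₂
    have a2 := cw_ins_add w (S₀ := S₀) hP1 hP2 hdis
    omega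

theorem half_cases {a b g : ℕ} (h : a / (2 * g) = b / (2 * g)) {c : ℕ}
    (h' : c / (2 * g) = b / (2 * g)) (hne : a / g ≠ b / g) : c / g = a / g ∨ c / g = b / g := by
  rw [mul_comm, ← Nat.div_div_eq_div_mul, ← Nat.div_div_eq_div_mul] at h h'
  generalize a / g = a' at *
  generalize b / g = b' at *
  generalize c / g = c' at *
  omega

theorem div_two_mul_of_div {a b g : ℕ} (h : a / g = b / g) : a / (2 * g) = b / (2 * g) := by
  rw [mul_comm, ← Nat.div_div_eq_div_mul, ← Nat.div_div_eq_div_mul, h]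

theorem refine_x (X : List (ℕ × ℕ)) (gx gy : ℕ) :
    (∀ v u, u ∈ cellL X gx gy v → u ∈ cellL X (2 * gx) gy v) ∧
    (∀ v u₁ u₂ u₃, u₁ ∈ cellL X (2 * gx) gy v → u₂ ∈ cellL X (2 * gx) gy v →
      u₃ ∈ cellL X (2 * gx) gy v → u₂ ∉ cellL X gx gy u₁ →
      u₃ ∈ cellL X gx gy u₁ ∨ u₃ ∈ cellL X gx gy u₂) := by
  constructor
  · intro v u h
    rw [mem_cellL] at h ⊢
    exact ⟨h.1, div_two_mul_of_div h.2.1, h.2.2⟩
  · intro v u₁ u₂ u₃ h1 h2 h3 h4
    rw [mem_cellL] at h1 h2 h3 h4 ⊢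
    rw [mem_cellL]
    have hne : (X.getD u₂ (0, 0)).1 / gx ≠ (X.getD u₁ (0, 0)).1 / gx := by
      intro h
      exact h4 ⟨h2.1, h, by rw [h2.2.2, h1.2.2]⟩
    rcases half_cases (h2.2.1.trans h1.2.1.symm) (h3.2.1.trans h1.2.1.symm) hne with h | h
    · exact Or.inr ⟨h3.1, h, by rw [h3.2.2, h2.2.2]⟩
    · exact Or.inl ⟨h3.1, h, by rw [h3.2.2, h1.2.2]⟩

theorem refine_y (X : List (ℕ × ℕ)) (gx gy : ℕ) :
    (∀ v u, u ∈ cellL X gx gy v → u ∈ cellL X gx (2 * gy) v) ∧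
    (∀ v u₁ u₂ u₃, u₁ ∈ cellL X gx (2 * gy) v → u₂ ∈ cellL X gx (2 * gy) v →
      u₃ ∈ cellL X gx (2 * gy) v → u₂ ∉ cellL X gx gy u₁ →
      u₃ ∈ cellL X gx gy u₁ ∨ u₃ ∈ cellL X gx gy u₂) := by
  constructor
  · intro v u h
    rw [mem_cellL] at h ⊢
    exact ⟨h.1, h.2.1, div_two_mul_of_div h.2.2⟩
  · intro v u₁ u₂ u₃ h1 h2 h3 h4
    rw [mem_cellL] at h1 h2 h3 h4 ⊢
    rw [mem_cellL]
    have hne : (X.getD u₂ (0, 0)).2 / gy ≠ (X.getD u₁ (0, 0)).2 / gy := by
      intro h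
      exact h4 ⟨h2.1, by rw [h2.2.1, h1.2.1], h⟩
    rcases half_cases (h2.2.2.trans h1.2.2.symm) (h3.2.2.trans h1.2.2.symm) hne with h | h
    · exact Or.inr ⟨h3.1, by rw [h3.2.1, h2.2.1], h⟩
    · exact Or.inl ⟨h3.1, by rw [h3.2.1, h1.2.1], h⟩

/-- The start of the induction. -/
theorem zero_complete (hS₀ : S₀ ⊆ trips X.length)
    (hcov : ∀ v < X.length, ∃! t, t ∈ S₀ ∧ tmem v t)
    (hinj : ∀ u < X.length, ∀ v < X.length, X.getD u (0, 0) = X.getD v (0, 0) → u = v) :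
    ∀ v < X.length, ∃ S ∈ vlr w (trips X.length) R (cells N X) 0 (kc X S₀ 1 1 v),
      cw w S ≤ cw w (ins S₀ (cellL X 1 1 v)) := by
  intro v hv
  have hcell : ∀ u, u ∈ cellL X 1 1 v ↔ u = v := by
    intro u
    constructor
    · intro h
      rw [mem_cellL] at h
      simp only [Nat.div_one] at h
      exact hinj u h.1 v hv (Prod.ext h.2.1 h.2.2)
    · rintro rfl
      exact self_mem_cellL hv
  have hF : Full (kc X S₀ 1 1 v) := by
    intro u hu
    have huv : u = v := (hcell u).1 hu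
    subst huv
    obtain ⟨t, ⟨ht, hvt⟩, huniq⟩ := hcov u hv
    constructor
    · refine ⟨t, mem_crs.2 ⟨ht, touch_of_mem hvt hu, ?_⟩, hvt⟩
      intro hi
      have h1 := (hcell _).1 hi.1
      have h2 := (hcell _).1 hi.2.1
      have h3 := mem_trips'.1 (hS₀ ht)
      omega
    · intro t₁ ht₁ t₂ ht₂ h1 h2
      rw [huniq t₁ ⟨(mem_crs.1 ht₁).1, h1⟩, huniq t₂ ⟨(mem_crs.1 ht₂).1, h2⟩]
  refine ⟨[], ?_, Nat.zero_le _⟩
  change [] ∈ base _
  unfold base
  rw [if_pos hF]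
  simp

end

theorem two_mul_le_two_pow : ∀ k : ℕ, 2 * k ≤ 2 ^ k
  | 0 => by norm_num
  | 1 => by norm_num
  | k + 2 => by
    have := two_mul_le_two_pow (k + 1)
    rw [pow_succ]
    have h2 : 2 ≤ 2 ^ (k + 1) := by
      calc 2 = 2 ^ 1 := by norm_num
        _ ≤ 2 ^ (k + 1) := Nat.pow_le_pow_right (by norm_num) (by omega)
    omega

open Classical in
/-- The dynamic programme returns a partition which is at least as good as every partition which
crosses all cells of all dyadic grids at most `R` times. -/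
theorem _root_.Pool.Agent.TH694.M3.dp_complete (w : Trip → ℕ) (R N : ℕ) (X : List (ℕ × ℕ)) (S₀ : List Trip)
    (hS₀ : S₀ ⊆ trips X.length) (hnd : S₀.Nodup)
    (hcov : ∀ v < X.length, ∃! t, t ∈ S₀ ∧ tmem v t)
    (hinj : ∀ u < X.length, ∀ v < X.length, X.getD u (0, 0) = X.getD v (0, 0) → u = v)
    (k : ℕ) (hk : 2 ^ k ≤ N)
    (htop : ∀ t ∈ S₀, inside t (cellL X (2 ^ k) (2 ^ k) t.1))
    (hcross : ∀ j ≤ 2 * k, ∀ v < X.length,
      (S₀.filter (fun t => decide (touch t (cellL X (2 ^ ((j + 1) / 2)) (2 ^ (j / 2)) v) ∧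
        ¬ inside t (cellL X (2 ^ ((j + 1) / 2)) (2 ^ (j / 2)) v)))).length ≤ R) :
    ∃ S ∈ dp w R N X, cw w S ≤ cw w S₀ := by
  have hcross' : ∀ j ≤ 2 * k, ∀ v < X.length,
      (crs S₀ (cellL X (2 ^ ((j + 1) / 2)) (2 ^ (j / 2)) v)).length ≤ R := hcross
  have hle : ∀ i ≤ k, 2 ^ i ≤ N := fun i hi =>
    (Nat.pow_le_pow_right (by norm_num) hi).trans hk
  have main : ∀ j ≤ 2 * k, ∀ v < X.length,
      ∃ S ∈ vlr w (trips X.length) R (cells N X) j
        (kc X S₀ (2 ^ ((j + 1) / 2)) (2 ^ (j / 2)) v),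
      cw w S ≤ cw w (ins S₀ (cellL X (2 ^ ((j + 1) / 2)) (2 ^ (j / 2)) v)) := by
    intro j
    induction j with
    | zero =>
      intro _
      exact zero_complete hS₀ hcov hinj
    | succ j ih =>
      intro hj
      have ih' := ih (by omega)
      have hR := hcross' j (by omega)
      have hx := hle ((j + 1) / 2) (by omega)
      have hy := hle (j / 2) (by omega)
      rcases Nat.even_or_odd' j with ⟨i, hi | hi⟩
      · have e1 : (j + 1) / 2 = i := by omega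
        have e2 : j / 2 = i := by omega
        have e3 : (j + 1 + 1) / 2 = i + 1 := by omega
        rw [e1, e2] at ih' hR
        rw [e1] at hx
        rw [e3, e1, pow_succ, mul_comm]
        exact step_complete hS₀ hx hx hR (refine_x X _ _).1 (refine_x X _ _).2 ih'
      · have e1 : (j + 1) / 2 = i + 1 := by omega
        have e2 : j / 2 = i := by omega
        have e3 : (j + 1 + 1) / 2 = i + 1 := by omega
        rw [e1, e2] at ih' hR
        rw [e1] at hx
        rw [e2] at hy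
        rw [e3, e1]
        have h2 : 2 ^ (i + 1) = 2 * 2 ^ i := by rw [pow_succ, mul_comm]
        have := step_complete (w := w) hS₀ hx hy hR (refine_y X _ _).1 (refine_y X _ _).2 ih'
        rw [← h2] at this
        exact this
  have top : ∀ v < X.length, ∃ S ∈ vlr w (trips X.length) R (cells N X) N
      (cellL X (2 ^ k) (2 ^ k) v, []),
      cw w S ≤ cw w (ins S₀ (cellL X (2 ^ k) (2 ^ k) v)) := by
    intro v hv
    obtain ⟨S, hS, hw⟩ := main (2 * k) le_rfl v hv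
    have e1 : (2 * k + 1) / 2 = k := by omega
    have e2 : 2 * k / 2 = k := by omega
    rw [e1, e2] at hS hw
    have hnil : crs S₀ (cellL X (2 ^ k) (2 ^ k) v) = [] := by
      rw [List.eq_nil_iff_forall_not_mem]
      intro t ht
      rw [mem_crs] at ht
      obtain ⟨u, hu, hut⟩ := exists_of_touch ht.2.1
      apply ht.2.2
      have h1 := htop t ht.1
      have h2 := cellL_eq (mem_of_inside hut h1)
      rw [cellL_eq hu] at h2
      rw [h2]
      exact h1
    unfold kc at hS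
    rw [hnil] at hS
    obtain ⟨S', hS', hw'⟩ := vlr_mono_le hS ((two_mul_le_two_pow k).trans hk)
    exact ⟨S', hS', hw'.trans hw⟩
  have hkey : ∀ v < X.length, (cellL X (2 ^ k) (2 ^ k) v, ([] : List Trip)) ∈
      keys (trips X.length) R (cells N X) := by
    intro v hv
    rw [mem_keys']
    exact ⟨cellL_mem_cells hk hk hv, mem_seqs'.2 ⟨by simp, by simp⟩⟩
  refine ⟨outS (trips X.length) (tabr w (trips X.length) R (cells N X) N) X (2 ^ k),
    mem_outs'.2 ⟨2 ^ k, hk, ?_, rfl⟩, ?_⟩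
  · intro v hv
    rw [List.mem_range] at hv
    obtain ⟨S, hS, -⟩ := top v hv
    exact ⟨(_, vlr w (trips X.length) R (cells N X) N (cellL X (2 ^ k) (2 ^ k) v, [])),
      mem_tabr'.2 ⟨hkey v hv, rfl⟩, rfl, List.ne_nil_of_mem hS⟩
  · -- weights
    -- the value as a function of the cell
    let C : Finset (List ℕ) := (Finset.range X.length).image (cellL X (2 ^ k) (2 ^ k))
    have hC : ∀ P ∈ C, ∃ S : List Trip,
        S ∈ vlr w (trips X.length) R (cells N X) N (P, []) ∧ cw w S ≤ cw w (ins S₀ P) := by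
      intro P hP
      obtain ⟨v, hv, rfl⟩ := Finset.mem_image.1 hP
      obtain ⟨S, h1, h2⟩ := top v (Finset.mem_range.1 hv)
      exact ⟨S, h1, h2⟩
    choose! H hH using hC
    have hcwf : ∀ {L : List Trip}, L.Nodup → cw w L = ∑ t ∈ L.toFinset, w t := by
      intro L hL
      exact (List.sum_toFinset w hL).symm
    have hout : (outS (trips X.length) (tabr w (trips X.length) R (cells N X) N) X
        (2 ^ k)).Nodup := List.Nodup.filter _ (nodup_trips' _)
    rw [hcwf hout]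
    have hsub : (outS (trips X.length) (tabr w (trips X.length) R (cells N X) N) X
        (2 ^ k)).toFinset ⊆ C.biUnion (fun P => (H P).toFinset) := by
      intro t ht
      rw [List.mem_toFinset, mem_outS'] at ht
      obtain ⟨-, v, hv, e, he, he1, S, hS, htS⟩ := ht
      rw [Finset.mem_biUnion]
      have hvC : cellL X (2 ^ k) (2 ^ k) v ∈ C :=
        Finset.mem_image.2 ⟨v, Finset.mem_range.2 (List.mem_range.1 hv), rfl⟩
      refine ⟨_, hvC, ?_⟩
      rw [List.mem_toFinset]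
      have h1 := (hH _ hvC).1
      have h2 := (mem_tabr'.1 he).2
      rw [h2, he1] at hS
      rw [vlr_unique h1 hS]
      exact htS
    have hHv : ∀ P ∈ C, Valid (trips X.length) (P, []) (H P) := by
      intro P hP
      obtain ⟨v, hv, rfl⟩ := Finset.mem_image.1 hP
      exact valid_vlr N (hkey v (Finset.mem_range.1 hv)) (hH _ hP).1
    calc ∑ t ∈ (outS (trips X.length) (tabr w (trips X.length) R (cells N X) N) X
        (2 ^ k)).toFinset, w t
        ≤ ∑ t ∈ C.biUnion (fun P => (H P).toFinset), w t :=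
          Finset.sum_le_sum_of_subset hsub
      _ = ∑ P ∈ C, ∑ t ∈ (H P).toFinset, w t := by
          rw [Finset.sum_biUnion]
          intro P hP Q hQ hPQ
          rw [Function.onFun, Finset.disjoint_left]
          intro t h1 h2
          rw [List.mem_toFinset] at h1 h2
          have h3 := ((hHv P hP).2.1 t h1).1
          have h4 := ((hHv Q hQ).2.1 t h2).1
          apply hPQ
          obtain ⟨u, hu, rfl⟩ := Finset.mem_image.1 hP
          obtain ⟨v, hv, rfl⟩ := Finset.mem_image.1 hQ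
          rw [← cellL_eq h3, ← cellL_eq h4]
      _ ≤ ∑ P ∈ C, ∑ t ∈ (ins S₀ P).toFinset, w t := by
          refine Finset.sum_le_sum (fun P hP => ?_)
          have h1 := hcwf ((nodup_trips' _).sublist (hHv P hP).1)
          have h2 : cw w (ins S₀ P) = ∑ t ∈ (ins S₀ P).toFinset, w t :=
            hcwf (List.Nodup.filter _ hnd)
          rw [← h1, ← h2]
          exact (hH P hP).2
      _ = ∑ t ∈ C.biUnion (fun P => (ins S₀ P).toFinset), w t := by
          rw [Finset.sum_biUnion]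
          intro P hP Q hQ hPQ
          rw [Function.onFun, Finset.disjoint_left]
          intro t h1 h2
          rw [List.mem_toFinset, mem_ins] at h1 h2
          apply hPQ
          obtain ⟨u, hu, rfl⟩ := Finset.mem_image.1 hP
          obtain ⟨v, hv, rfl⟩ := Finset.mem_image.1 hQ
          rw [← cellL_eq h1.2.1, ← cellL_eq h2.2.1]
      _ ≤ ∑ t ∈ S₀.toFinset, w t := by
          refine Finset.sum_le_sum_of_subset ?_
          intro t ht
          rw [Finset.mem_biUnion] at ht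
          obtain ⟨P, -, h⟩ := ht
          rw [List.mem_toFinset, mem_ins] at h
          exact List.mem_toFinset.2 h.1
      _ = cw w S₀ := (hcwf hnd).symm

end J658

end Pool.Agent.TH694.M3
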